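import Pool.Agent.Q274.BKC.Stm
import Pool.Agent.Y676.Iso
import Pool.Agent.Q283.GM.Stm

/-!
# Bloch-Kato Selmer groups of CM motives of all weights at the prime 2: statements of the parts
-/

set_option autoImplicit false
set_option linter.unusedVariables false

namespace Pool.Agent.Q274.BKC

open NumberField IsDedekindDomain
open scoped Classical
open Pool.Agent.Y676.HS (hs)

/-! ### Classes modulo squares -/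

section
variable {K : Type} [Field K]

/-- all the elements of `H` fix the square roots of `x` -/
def Fx (x : K) (H : Set (GK K)) : Prop :=
  ∀ y : AlgebraicClosure K, y ^ 2 = algebraMap K (AlgebraicClosure K) x → ∀ σ ∈ H, σ y = y

end

/-- the Selmer condition modulo squares -/
structure SX {K : Type} [Field K] [NumberField K] (q D : ℕ) (s x : K) : Prop where
  ne : x ≠ 0
  even : ∀ v : HeightOneSpectrum (𝓞 K), ((2 * q * D : ℕ) : 𝓞 K) ∉ v.asIdeal →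
    ∃ a : K, a ≠ 0 ∧ v.valuation K (x * a ^ 2) = 1
  loc : ∀ (l : ℕ) (Q : Ideal (OB K)), l.Prime → l ∣ q * D → Q.IsMaximal → (l : OB K) ∈ Q →
    Fx x (Dec Q) ∨ Fx (x * (D * s)) (Dec Q)
  two : ∀ Q : Ideal (OB K), Q.IsMaximal → AboveC s Q → Fx x (Dec Q) ∨ Fx (x * (D * s)) (Dec Q)

/-- `Q` is the prime of the embedding of the algebraic closure of `K` in the algebraic closure of
`ℚ_l` with `s ↦ τ` -/
structure Emb {K : Type} [Field K] (s : K) (l : ℕ) [Fact l.Prime] (τ : PadicAlgCl l)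
    (Q : Ideal (OB K)) : Prop where
  max : Q.IsMaximal
  mem : (l : OB K) ∈ Q
  iff : ∀ (A B : ℚ) (z : OB K), (z : AlgebraicClosure K) =
    algebraMap K (AlgebraicClosure K) ((A : K) + B * s) →
    (z ∈ Q ↔ ‖((A : ℚ) : PadicAlgCl l) + ((B : ℚ) : PadicAlgCl l) * τ‖ < 1)
  sqr : ∀ A B : ℚ, Fx ((A : K) + B * s) (Dec Q) → ∃ a b : ℚ_[l],
    (algebraMap ℚ_[l] (PadicAlgCl l) a + algebraMap ℚ_[l] (PadicAlgCl l) b * τ) ^ 2 =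
      ((A : ℚ) : PadicAlgCl l) + ((B : ℚ) : PadicAlgCl l) * τ

/-! ### Jobs: linear algebra and Galois theory -/

/-- BKC-1 (LIN). -/
def S_LIN : Prop := ∀ (G : Type) [TopologicalSpace G] [CompactSpace G]
  (W : Submodule ℚ_[2] (G → ℚ_[2])), (∀ c ∈ W, Continuous c) → ∀ r : ℕ,
  (r : Cardinal) ≤ Module.rank ℚ_[2] W →
  ∃ (c : Fin r → (G → ℚ_[2])) (τ : Fin r → G), (∀ i, c i ∈ W) ∧
    (∀ i j, c i (τ j) = if i = j then 1 else 0) ∧ ∀ i g, ‖c i g‖ ≤ 1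

/-- BKC-2 (RAM). -/
def S_RAM : Prop := ∀ (K : Type) [Field K] [NumberField K] (x : K) (v : HeightOneSpectrum (𝓞 K))
  (Q : Ideal (OB K)), x ≠ 0 → (∀ a : K, a ≠ 0 → v.valuation K (x * a ^ 2) ≠ 1) → Q.IsMaximal →
  Q.comap (algebraMap (𝓞 K) (OB K)) = v.asIdeal →
  ∃ σ ∈ Ine Q, ∀ y : AlgebraicClosure K, y ^ 2 = algebraMap K (AlgebraicClosure K) x → σ y = -y

/-- BKC-3 (EMB). -/
def S_EMB : Prop := ∀ (K : Type) [Field K] [NumberField K] (q : ℕ) (s : K), q.Prime → q % 8 = 7 →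
  s ^ 2 = -(q : K) → Module.finrank ℚ K = 2 → ∀ (l : ℕ) [Fact l.Prime],
  (∀ τ : PadicAlgCl l, τ ^ 2 = -(q : PadicAlgCl l) → ∃ Q : Ideal (OB K), Emb s l τ Q) ∧
  (∀ Q : Ideal (OB K), Q.IsMaximal → (l : OB K) ∈ Q →
    ∃ τ : PadicAlgCl l, τ ^ 2 = -(q : PadicAlgCl l) ∧ Emb s l τ Q)

/-- BKC-4 (ODD). -/
def S_ODD : Prop := ∀ (K : Type) [Field K] [NumberField K] (q D : ℕ) (s : K), q.Prime → q % 8 = 7 →
  Cl q D → s ^ 2 = -(q : K) → Module.finrank ℚ K = 2 → ∀ (l : ℕ) (v : HeightOneSpectrum (𝓞 K)),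
  l.Prime → l ∣ q * D → (l : 𝓞 K) ∈ v.asIdeal → ∀ a : K, a ≠ 0 →
  v.valuation K ((D * s) * a ^ 2) ≠ 1

/-- BKC-5 (RED). -/
def S_RED : Prop := S_RAM → S_EMB → S_ODD → ∀ (K : Type) [Field K] [NumberField K] (q D : ℕ) (s : K)
  (χ : GK K →* ℤ_[2]ˣ), q.Prime → q % 8 = 7 → Cl q D → s ^ 2 = -(q : K) →
  Module.finrank ℚ K = 2 → Continuous χ → Unr q D χ → Res s D χ →
  ∀ c : GK K → ℚ_[2], IsSel s χ c → (∀ σ, ‖c σ‖ ≤ 1) → ∃ x : K, SX q D s x ∧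
    ∀ σ : GK K, (‖c σ‖ < 1 ↔ ∀ y : AlgebraicClosure K,
      y ^ 2 = algebraMap K (AlgebraicClosure K) x → σ y = y)

/-! ### Local data -/

/-- the local conditions on `A + B s`, in coordinates -/
structure Loc (q D : ℕ) (A B : ℚ) : Prop where
  neA : A ≠ 0
  neB : B ≠ 0
  good : ∀ (l : ℕ) [Fact l.Prime], ¬ l ∣ 2 * q * D → ∀ t : ℚ_[l], t ^ 2 = -(q : ℚ_[l]) →
    ∃ a u : ℚ_[l], a ≠ 0 ∧ ‖u‖ = 1 ∧ (A : ℚ_[l]) + B * t = a ^ 2 * u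
  goodi : ∀ (l : ℕ) [Fact l.Prime], ¬ l ∣ 2 * q * D → (∀ t : ℚ_[l], t ^ 2 ≠ -(q : ℚ_[l])) →
    Even (min (padicValRat l A) (padicValRat l B))
  split : ∀ (l : ℕ) [Fact l.Prime], l ∣ D → ∀ t : ℚ_[l], t ^ 2 = -(q : ℚ_[l]) →
    IsSquare ((A : ℚ_[l]) + B * t) ∨ IsSquare (((A : ℚ_[l]) + B * t) * (D * t))
  inert : ∀ (l : ℕ) [Fact l.Prime], l ∣ D → (∀ t : ℚ_[l], t ^ 2 ≠ -(q : ℚ_[l])) →
    (Even (min (padicValRat l A) (padicValRat l B)) ∧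
      IsSquare (((A ^ 2 + q * B ^ 2 : ℚ)) : ℚ_[l])) ∨
    (Odd (min (padicValRat l A) (padicValRat l B)) ∧
      IsSquare (((A ^ 2 + q * B ^ 2) * q : ℚ) : ℚ_[l]))
  ram : ∀ [Fact q.Prime], ∃ a b : ℚ_[q], (A : ℚ_[q]) = a ^ 2 - q * b ^ 2 ∧
    (B : ℚ_[q]) = 2 * a * b
  two : ∀ t : ℚ_[2], t ^ 2 = -(q : ℚ_[2]) → ‖t - 1‖ ≤ 1 / 4 →
    IsSquare ((A : ℚ_[2]) + B * t) ∨ IsSquare (((A : ℚ_[2]) + B * t) * (D * t))

/-- BKC-6 (LOCX). -/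
def S_LOCX : Prop := S_EMB → ∀ (K : Type) [Field K] [NumberField K] (q D : ℕ) (s : K) (A B : ℚ),
  q.Prime → q % 8 = 7 → Cl q D → s ^ 2 = -(q : K) → Module.finrank ℚ K = 2 →
  A ≠ 0 → B ≠ 0 → SX q D s ((A : K) + B * s) →
  (∀ Q : Ideal (OB K), Q.IsMaximal → (q : OB K) ∈ Q → Fx ((A : K) + B * s) (Dec Q)) → Loc q D A B

/-! ### Hilbert symbols -/

/-- the sum of the symbols `(A + B s, s)` over the places above `p` -/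
noncomputable def hh (q : ℕ) (A B : ℚ) (p : ℕ) [Fact p.Prime] : ℤ :=
  hs (((A ^ 2 + q * B ^ 2 : ℚ)) : ℚ_[p]) ((-(A * B) : ℚ) : ℚ_[p]) *
    hs ((A : ℚ) : ℚ_[p]) ((q : ℚ) : ℚ_[p])

/-- the same for all natural numbers -/
noncomputable def hn (q : ℕ) (A B : ℚ) (p : ℕ) : ℤ :=
  if h : p.Prime then @hh q A B p ⟨h⟩ else 1

/-- BKC-7 (PF). -/
def S_PF : Prop := ∀ (q : ℕ) (A B : ℚ), 0 < q → A ≠ 0 → B ≠ 0 → ∀ W : Finset ℕ,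
  (∀ p : ℕ, p.Prime → p ∉ W → hn q A B p = 1) → ∏ p ∈ W, hn q A B p = 1

/-- BKC-8 (H1). -/
def S_H1 : Prop := ∀ (p : ℕ) [Fact p.Prime] (q : ℕ) (A B : ℚ) (t : ℚ_[p]), 0 < q →
  t ^ 2 = -(q : ℚ_[p]) → A ≠ 0 → B ≠ 0 →
  hh q A B p = hs ((A : ℚ_[p]) + B * t) t * hs ((A : ℚ_[p]) - B * t) (-t)

/-- BKC-9 (H2). -/
def S_H2 : Prop := ∀ (p : ℕ) [Fact p.Prime] (q : ℕ) (A B : ℚ), 0 < q → p ≠ 2 → ¬ p ∣ q →
  (∀ t : ℚ_[p], t ^ 2 ≠ -(q : ℚ_[p])) → A ≠ 0 → B ≠ 0 →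
  hh q A B p = if IsSquare (q : ZMod p) ∨ Even (min (padicValRat p A) (padicValRat p B))
    then 1 else -1

/-- BKC-10 (H3). -/
def S_H3 : Prop := ∀ (q : ℕ) [Fact q.Prime] (A B : ℚ) (a b : ℚ_[q]), A ≠ 0 → B ≠ 0 →
  (A : ℚ_[q]) = a ^ 2 - q * b ^ 2 → (B : ℚ_[q]) = 2 * a * b → hh q A B q = 1

/-! ### Arithmetic -/

/-- BKC-11 (NRM). -/
def S_NRM : Prop := ∀ (q D : ℕ) (A B : ℚ), q.Prime → q % 8 = 7 → Cl q D → Loc q D A B →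
  ∃ (b : ℕ) (G : Finset ℕ) (r : ℚ), b ≤ 1 ∧ G ⊆ SP q D ∧ r ≠ 0 ∧
    A ^ 2 + q * B ^ 2 = 2 ^ b * ((∏ p ∈ G, p : ℕ) : ℚ) * r ^ 2

/-- the row `i` of the system -/
noncomputable def row (q D : ℕ) (G : Finset ℕ) (i : ℕ) : ZMod 2 :=
  ∑ p ∈ G.erase i, nr i p +
    if i ∈ G then ∑ r ∈ D.primeFactors.erase i, nr i r + n4 q i else 0

/-- BKC-12 (E1). -/
def S_E1 : Prop := ∀ (q D : ℕ) (A B : ℚ) (b : ℕ) (G : Finset ℕ) (r : ℚ), q.Prime → q % 8 = 7 →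
  Cl q D → Loc q D A B → G ⊆ SP q D → r ≠ 0 →
  A ^ 2 + q * B ^ 2 = 2 ^ b * ((∏ p ∈ G, p : ℕ) : ℚ) * r ^ 2 →
  ∀ i ∈ SP q D, row q D G i + b * nr i 2 = 0

/-- BKC-13 (E2). -/
def S_E2 : Prop := S_PF → S_H1 → S_H2 → S_H3 → ∀ (q D : ℕ) (A B : ℚ) (b : ℕ) (G : Finset ℕ)
  (r : ℚ), q.Prime → q % 8 = 7 → Cl q D → Loc q D A B → G ⊆ SP q D → r ≠ 0 →
  A ^ 2 + q * B ^ 2 = 2 ^ b * ((∏ p ∈ G, p : ℕ) : ℚ) * r ^ 2 →
  ∑ p ∈ G, n4 q p + ∑ p ∈ D.primeFactors \ SP q D, (b * nr p 2 + ∑ p' ∈ G, nr p p') +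
    (if q % 16 = 7 then (b : ZMod 2) else 0) = 0

/-- BKC-14 (B0). -/
def S_B0 : Prop := ∀ (q D b : ℕ) (G : Finset ℕ), q.Prime → q % 8 = 7 → Cl q D → G ⊆ SP q D →
  (∀ i ∈ SP q D, row q D G i + b * nr i 2 = 0) →
  ∑ p ∈ G, n4 q p + ∑ p ∈ D.primeFactors \ SP q D, (b * nr p 2 + ∑ p' ∈ G, nr p p') +
    (if q % 16 = 7 then (b : ZMod 2) else 0) = 0 → (b : ZMod 2) = 0

/-- BKC-15 (A2). -/
def S_A2 : Prop := ∀ (K : Type) [Field K] [CharZero K] (q D : ℕ) (s : K) (A B r : ℚ), q.Prime →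
  q % 8 = 7 → Cl q D → s ^ 2 = -(q : K) → Loc q D A B → A ^ 2 + q * B ^ 2 = r ^ 2 →
  ∃ F : Finset ℕ, F ⊆ SP q D ∧ (∀ i ∈ SP q D, row q D F i = 0) ∧
    IsSquare (((A : K) + B * s) * ((∏ p ∈ F, p : ℕ) : K))

/-- BKC-16 (BND). -/
def S_BND : Prop := S_EMB → S_LOCX → S_NRM → S_E1 → S_E2 → S_B0 → S_A2 → S_PF → S_H1 → S_H2 →
  S_H3 → ∀ (K : Type) [Field K] [NumberField K] (q D : ℕ) (s : K) (r : ℕ) (x : Fin r → K),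
  q.Prime → q % 8 = 7 → Cl q D → s ^ 2 = -(q : K) → Module.finrank ℚ K = 2 →
  (∀ i, SX q D s (x i)) →
  (∀ T : Finset (Fin r), T.Nonempty → ¬ IsSquare (∏ i ∈ T, x i) ∧
    ¬ IsSquare ((D * s) * ∏ i ∈ T, x i)) → r ≤ 2 * corank q D

/-! ### The characters of weight `i` -/

/-- BKC-17 (CLS). -/
def S_CLS : Prop := ∀ (K : Type) [Field K] [NumberField K] (q : ℕ) (s : K), q.Prime → q % 4 = 3 →
  s ^ 2 = -(q : K) → Module.finrank ℚ K = 2 → ∀ I : Ideal (𝓞 K), I ≠ ⊥ →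
  ∃ (n : ℕ) (β : 𝓞 K), Odd n ∧ I ^ n = Ideal.span {β}

/-- BKC-18 (INT). -/
def S_INT : Prop := ∀ (K : Type) [Field K] [NumberField K] (q : ℕ) (s : K), q.Prime → q % 8 = 7 →
  s ^ 2 = -(q : K) → Module.finrank ℚ K = 2 → ∀ (v : HeightOneSpectrum (𝓞 K)) (n : ℕ) (β : 𝓞 K),
  (2 : 𝓞 K) ∉ v.asIdeal → v.asIdeal ^ n = Ideal.span {β} → ∃ A B : ℤ, (β : K) = A + B * s

/-- BKC-19 (QR). -/
def S_QR : Prop := S_PF → S_H1 → S_H2 → ∀ (K : Type) [Field K] [NumberField K] (q D : ℕ) (s : K)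
  (t : ℤ_[2]), q.Prime → q % 8 = 7 → Cl q D → s ^ 2 = -(q : K) → Module.finrank ℚ K = 2 →
  t ^ 2 = -(q : ℤ_[2]) → (4 : ℤ_[2]) ∣ t - 3 → ∀ (v : HeightOneSpectrum (𝓞 K)) (n : ℕ) (A B : ℤ)
  (β S : 𝓞 K) (e : ℤ), ((2 * q * D : ℕ) : 𝓞 K) ∉ v.asIdeal → Odd n →
  v.asIdeal ^ n = Ideal.span {β} → (β : K) = A + B * s → (S : K) = s → (e = 1 ∨ e = -1) →
  (D * S) ^ ((Ideal.absNorm v.asIdeal - 1) / 2) - (e : 𝓞 K) ∈ v.asIdeal →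
  (4 : ℤ_[2]) ∣ (e : ℤ_[2]) -
    ((jacobiSym A q * jacobiSym D (A ^ 2 + q * B ^ 2).natAbs : ℤ) : ℤ_[2]) * ((A : ℤ_[2]) + B * t)

/-- BKC-20 (WT). -/
def S_WTJ : Prop := S_CLS → S_INT → S_QR → S_PF → S_H1 → S_H2 → S_WT

/-! ### The law of the coranks -/

/-- the class of the `D` of the average -/
def Cl8 (q D : ℕ) : Prop := Squarefree D ∧ ∀ p : ℕ, p.Prime → p ∣ D → p % 8 = 1 ∧ p ≠ q

/-- the twisting factors -/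
def Clm (q m : ℕ) : Prop := Squarefree m ∧ ∀ p : ℕ, p.Prime → p ∣ m →
  (p % 8 = 1 ∨ (p % 8 = 5 ∧ ¬ IsSquare (-(q : ZMod p)))) ∧ p ≠ q

/-- the squarefree part of `m D` for squarefree `m`, `D` -/
def tw (m D : ℕ) : ℕ := m * D / Nat.gcd m D ^ 2

/-- BKC-21 (LAW). -/
def S_LAW : Prop := ∀ (q : ℕ), q.Prime → q % 8 = 7 → ∀ (M : ℕ) (m r : Fin M → ℕ),
  Function.Injective m → (∀ j, Clm q (m j)) → Filter.Tendsto (fun X : ℕ =>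
    (((Finset.Icc 1 X).filter fun D => Cl8 q D ∧ ∀ j, corank q (tw (m j) D) = r j).card : ℝ) /
      (((Finset.Icc 1 X).filter fun D => Cl8 q D).card : ℝ)) Filter.atTop
    (nhds (Q283.GM.cR r))

end Pool.Agent.Q274.BKC
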