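import Pool.Agent.Q274.BKC.Asm
import Pool.Agent.Q16.BKC.LIN
import Pool.Agent.Q95.BKC.RAM
import Pool.Agent.Q154.BKC.EMB
import Pool.Agent.Q154.BKC.ODD
import Pool.Agent.Q95.BKC.RED
import Pool.Agent.Q274.BKC.Locx
import Pool.Agent.Q16.BKC.PF
import Pool.Agent.Q26.BKC.H1
import Pool.Agent.Q38.BKC.H2
import Pool.Agent.Q38.BKC.NRM
import Pool.Agent.Q38.BKC.E1
import Pool.Agent.Q26.BKC.E2
import Pool.Agent.Q26.BKC.B0
import Pool.Agent.Q16.BKC.A2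
import Pool.Agent.Q223.BKC.BND
import Pool.Agent.Q16.BKC.CLS
import Pool.Agent.Q26.BKC.INT
import Pool.Agent.Q26.BKC.QR
import Pool.Agent.Q149.BKC.WTJ
import Pool.Agent.Q225.BKC.LAW

/-!
# Bloch-Kato Selmer groups of CM motives of all weights at the prime 2: the theorems
-/

set_option autoImplicit false

namespace Pool.Agent.Q274.BKC

/-- the bound for the classes modulo squares -/
theorem t_BND' : C_BND :=
  Pool.Agent.Q223.BKC.t_BND Pool.Agent.Q154.BKC.t_EMB Pool.Agent.Q274.BKC.LX.t_LOCX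
    Pool.Agent.Q38.BKC.t_NRM Pool.Agent.Q38.BKC.t_E1 Pool.Agent.Q26.BKC.t_E2
    Pool.Agent.Q26.BKC.t_B0 Pool.Agent.Q16.BKC.t_A2 Pool.Agent.Q16.BKC.t_PF
    Pool.Agent.Q26.BKC.t_H1 Pool.Agent.Q38.BKC.t_H2 Pool.Agent.Q26.BKC.t_H3

/-- **the general theorem** -/
theorem t_GEN : S_GEN :=
  gen Pool.Agent.Q16.BKC.t_LIN Pool.Agent.Q95.BKC.t_RAM Pool.Agent.Q154.BKC.t_EMB
    Pool.Agent.Q154.BKC.t_ODD Pool.Agent.Q95.BKC.t_RED t_BND'

/-- **the characters of weight `i`** -/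
theorem t_WT : S_WT :=
  Pool.Agent.Q149.BKC.t_WTJ Pool.Agent.Q16.BKC.t_CLS Pool.Agent.Q26.BKC.t_INT
    Pool.Agent.Q26.BKC.t_QR Pool.Agent.Q16.BKC.t_PF Pool.Agent.Q26.BKC.t_H1
    Pool.Agent.Q38.BKC.t_H2

/-- **the law of the coranks** -/
theorem t_LAW : S_LAW := Pool.Agent.Q225.BKC.t_LAW

open NumberField in
/-- **all weights at once** -/
theorem main (K : Type) [Field K] [NumberField K] (q D i : ℕ) (s : K) (t : ℤ_[2])
    (χ : GK K →* ℤ_[2]ˣ) (hq : q.Prime) (hq8 : q % 8 = 7) (hD : Cl q D) (hs : s ^ 2 = -(q : K))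
    (hK : Module.finrank ℚ K = 2) (ht : t ^ 2 = -(q : ℤ_[2])) (ht4 : (4 : ℤ_[2]) ∣ t - 3)
    (hc : Continuous χ) (hχ : IsWeight q D i s t χ) :
    Module.rank ℚ_[2] (H1f s χ) ≤ ((2 * corank q D : ℕ) : Cardinal) := by
  obtain ⟨h1, h2⟩ := t_WT K q D i s t χ hq hq8 hD hs hK ht ht4 hc hχ
  exact t_GEN K q D s χ hq hq8 hD hs hK hc h1 h2

end Pool.Agent.Q274.BKC
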