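import Pool.Agent.Q274.BKC.Stm2

/-!
# Assembly of the general theorem
-/

set_option autoImplicit false
set_option linter.unusedVariables false

namespace Pool.Agent.Q274.BKC

open NumberField IsDedekindDomain
open scoped Classical

/-- the conclusion of `S_BND` -/
def C_BND : Prop := ∀ (K : Type) [Field K] [NumberField K] (q D : ℕ) (s : K) (r : ℕ)
  (x : Fin r → K),
  q.Prime → q % 8 = 7 → Cl q D → s ^ 2 = -(q : K) → Module.finrank ℚ K = 2 →
  (∀ i, SX q D s (x i)) →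
  (∀ T : Finset (Fin r), T.Nonempty → ¬ IsSquare (∏ i ∈ T, x i) ∧
    ¬ IsSquare ((D * s) * ∏ i ∈ T, x i)) → r ≤ 2 * corank q D

section
variable {K : Type} [Field K]

/-- the Selmer cocycles that vanish at `σ₀` -/
noncomputable def Sel0 (s : K) (χ : GK K →* ℤ_[2]ˣ) (σ₀ : GK K) : Submodule ℚ_[2] (GK K → ℚ_[2]) :=
  Sel s χ ⊓ LinearMap.ker (LinearMap.proj (R := ℚ_[2]) (φ := fun _ : GK K => ℚ_[2]) σ₀)

lemma mem_Sel0 {s : K} {χ : GK K →* ℤ_[2]ˣ} {σ₀ : GK K} {c : GK K → ℚ_[2]} :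
    c ∈ Sel0 s χ σ₀ ↔ IsSel s χ c ∧ c σ₀ = 0 := Iff.rfl

lemma continuous_val {χ : GK K →* ℤ_[2]ˣ} (h : Continuous χ) : Continuous (val χ) := by
  have h1 : Continuous fun σ : GK K => ((χ σ : ℤ_[2]ˣ) : ℤ_[2]) := Units.continuous_val.comp h
  exact continuous_subtype_val.comp h1

lemma val_mul (χ : GK K →* ℤ_[2]ˣ) (σ τ : GK K) : val χ (σ * τ) = val χ σ * val χ τ := by
  unfold val
  rw [map_mul, Units.val_mul, PadicInt.coe_mul]

/-- coboundaries are Selmer cocycles -/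
lemma cob_sel (s : K) {χ : GK K →* ℤ_[2]ˣ} (h : Continuous χ) (y : ℚ_[2]) :
    IsSel s χ (fun σ => (val χ σ - 1) * y) := by
  refine ⟨((continuous_val h).sub continuous_const).mul continuous_const, fun σ τ => ?_,
    fun Q _ _ => ⟨y, fun σ _ => rfl⟩, fun Q _ _ => ⟨y, fun σ _ => rfl⟩⟩
  rw [val_mul]
  ring

lemma rank_le (s : K) {χ : GK K →* ℤ_[2]ˣ} (h : Continuous χ) (σ₀ : GK K) (h0 : val χ σ₀ ≠ 1) :
    Module.rank ℚ_[2] (H1f s χ) ≤ Module.rank ℚ_[2] (Sel0 s χ σ₀) := by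
  let f : Sel0 s χ σ₀ →ₗ[ℚ_[2]] H1f s χ :=
    (B1s s χ).mkQ.comp (Submodule.inclusion (inf_le_left : Sel0 s χ σ₀ ≤ Sel s χ))
  refine LinearMap.rank_le_of_surjective f ?_
  intro z
  obtain ⟨c, rfl⟩ := (B1s s χ).mkQ_surjective z
  have hc : IsSel s χ c.1 := c.2
  set y := c.1 σ₀ / (val χ σ₀ - 1) with hy
  have h1 : val χ σ₀ - 1 ≠ 0 := sub_ne_zero.2 h0
  have hb : (fun σ => (val χ σ - 1) * y) ∈ Sel s χ := cob_sel s h y
  have hc' : c.1 - (fun σ => (val χ σ - 1) * y) ∈ Sel s χ := (Sel s χ).sub_mem c.2 hb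
  have h2 : c.1 - (fun σ => (val χ σ - 1) * y) ∈ Sel0 s χ σ₀ := by
    refine mem_Sel0.2 ⟨hc', ?_⟩
    simp only [Pi.sub_apply, hy]
    field_simp
    ring
  refine ⟨⟨_, h2⟩, ?_⟩
  show (B1s s χ).mkQ ⟨_, hc'⟩ = (B1s s χ).mkQ c
  rw [Submodule.mkQ_apply, Submodule.mkQ_apply, Submodule.Quotient.eq]
  show (c.1 - (fun σ => (val χ σ - 1) * y)) - c.1 ∈ B1 χ
  have e : (c.1 - (fun σ => (val χ σ - 1) * y)) - c.1 = (-y) • fun σ => val χ σ - 1 := by
    funext σ
    simp only [Pi.sub_apply, Pi.smul_apply, smul_eq_mul]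
    ring
  rw [e]
  exact Submodule.smul_mem _ _ (Submodule.subset_span rfl)

end

theorem gen (h1 : S_LIN) (h2 : S_RAM) (h3 : S_EMB) (h4 : S_ODD) (h5 : S_RED) (h6 : C_BND) :
    S_GEN := by
  intro K _ _ q D s χ hq hq8 hD hs hK hχ hU hR
  by_contra hcon
  rw [not_le] at hcon
  have hq0 : (q : 𝓞 K) ≠ 0 := by
    rw [Nat.cast_ne_zero]
    exact hq.ne_zero
  have hs0 : s ≠ 0 := by
    rintro rfl
    have h7 : (q : K) = 0 := by
      have := hs
      rw [zero_pow two_ne_zero] at this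
      linear_combination this
    exact hq.ne_zero (Nat.cast_injective (R := K) (by rw [h7, Nat.cast_zero]))
  have hD0 : D ≠ 0 := hD.sqf.ne_zero
  have hDs : (D : K) * s ≠ 0 := mul_ne_zero (Nat.cast_ne_zero.2 hD0) hs0
  -- `D s` is not a square
  have hns : ¬ IsSquare ((D : K) * s) := by
    rintro ⟨z, hz⟩
    have hz0 : z ≠ 0 := by
      rintro rfl
      exact hDs (by rw [hz, mul_zero])
    have hnu : ¬ IsUnit (q : 𝓞 K) := by
      intro hu
      have h8 : IsUnit ((q : ℤ)) := by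
        have h9 := (NumberField.isUnit_iff_norm (K := K) (x := (q : 𝓞 K))).1 hu
        have h10 : (RingOfIntegers.norm ℚ (q : 𝓞 K) : ℚ) = (q : ℚ) ^ 2 := by
          rw [RingOfIntegers.coe_norm]
          have : ((q : 𝓞 K) : K) = algebraMap ℚ K (q : ℚ) := by simp
          rw [this, Algebra.norm_algebraMap, hK]
        rw [h10, abs_of_nonneg (by positivity)] at h9
        exfalso
        have h11 : (2 : ℚ) ≤ q := by exact_mod_cast hq.two_le
        nlinarith
      exact (Nat.prime_iff_prime_int.1 hq).not_isUnit h8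
    obtain ⟨M, hM, hqM⟩ := exists_max_ideal_of_mem_nonunits hnu
    let v : HeightOneSpectrum (𝓞 K) := ⟨M, hM.isPrime, by
      rintro rfl
      exact hq0 ((Submodule.mem_bot _).1 hqM)⟩
    refine h4 K q D s hq hq8 hD hs hK q v hq (dvd_mul_right q D) hqM z⁻¹ (inv_ne_zero hz0) ?_
    rw [hz]
    have : z * z * z⁻¹ ^ 2 = 1 := by field_simp
    rw [this, map_one]
  obtain ⟨y0, hy0⟩ : ∃ y0 : AlgebraicClosure K,
      y0 ^ 2 = algebraMap K (AlgebraicClosure K) (D * s) :=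
    IsAlgClosed.exists_pow_nat_eq _ two_pos
  have hy00 : y0 ≠ 0 := by
    rintro rfl
    rw [zero_pow two_ne_zero] at hy0
    exact hDs ((map_eq_zero _).1 hy0.symm)
  obtain ⟨σ₀, hσ₀⟩ : ∃ σ₀ : GK K, σ₀ y0 ≠ y0 := by
    by_contra hall
    push Not at hall
    have h7 := (InfiniteGalois.mem_bot_iff_fixed (k := K) (K := AlgebraicClosure K) y0).2 hall
    rw [IntermediateField.mem_bot] at h7
    obtain ⟨z, hz⟩ := h7
    refine hns ⟨z, ?_⟩
    apply (algebraMap K (AlgebraicClosure K)).injective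
    rw [← hy0, ← hz, map_mul, pow_two]
  have hχ0 : val χ σ₀ ≠ 1 := by
    intro h7
    exact hσ₀ ((hR y0 hy0 σ₀).2 (by rw [h7, sub_self, norm_zero]; norm_num))
  have hr : ((2 * corank q D + 1 : ℕ) : Cardinal) ≤ Module.rank ℚ_[2] (Sel0 s χ σ₀) := by
    refine le_trans ?_ (rank_le s hχ σ₀ hχ0)
    rw [Nat.cast_add, Nat.cast_one]
    exact Cardinal.natCast_add_one_le_iff.2 hcon
  obtain ⟨c, τ, hc, hcτ, hcn⟩ := h1 (GK K) (Sel0 s χ σ₀) (fun c hc => (mem_Sel0.1 hc).1.cont) _ hr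
  choose x hx hxc using fun i => h5 h2 h3 h4 K q D s χ hq hq8 hD hs hK hχ hU hR (c i)
    (mem_Sel0.1 (hc i)).1 (hcn i)
  choose y hy using fun i => IsAlgClosed.exists_pow_nat_eq (k := AlgebraicClosure K)
    (algebraMap K (AlgebraicClosure K) (x i)) two_pos
  have hy0' : ∀ i, y i ≠ 0 := by
    intro i h
    have h7 := hy i
    rw [h, zero_pow two_ne_zero] at h7
    exact (hx i).ne ((map_eq_zero _).1 h7.symm)
  have hpm : ∀ (σ : GK K) i, σ (y i) = y i ∨ σ (y i) = -y i := by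
    intro σ i
    apply sq_eq_sq_iff_eq_or_eq_neg.1
    rw [← map_pow, hy i, AlgEquiv.commutes]
  have hfix : ∀ (σ : GK K) i, ‖c i σ‖ < 1 → σ (y i) = y i := fun σ i h => (hxc i σ).1 h _ (hy i)
  have hmov : ∀ (σ : GK K) i, ¬ ‖c i σ‖ < 1 → σ (y i) = -y i := by
    intro σ i h
    rcases hpm σ i with h7 | h7
    · exfalso
      refine h ((hxc i σ).2 fun z hz => ?_)
      have h8 : z = y i ∨ z = -y i := sq_eq_sq_iff_eq_or_eq_neg.1 (by rw [hz, hy i])
      rcases h8 with rfl | rfl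
      · exact h7
      · rw [map_neg, h7]
    · exact h7
  have hkey := h6 K q D s (2 * corank q D + 1) x hq hq8 hD hs hK hx (by
    intro T hT
    have hprod : (∏ i ∈ T, y i) ^ 2 = algebraMap K (AlgebraicClosure K) (∏ i ∈ T, x i) := by
      rw [← Finset.prod_pow, map_prod]
      exact Finset.prod_congr rfl fun i _ => hy i
    have hP0 : ∏ i ∈ T, y i ≠ 0 := Finset.prod_ne_zero_iff.2 fun i _ => hy0' i
    constructor
    · rintro ⟨z, hz⟩
      obtain ⟨j, hj⟩ := hT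
      have e1 : τ j (∏ i ∈ T, y i) = -∏ i ∈ T, y i := by
        rw [map_prod, ← Finset.mul_prod_erase T _ hj, ← Finset.mul_prod_erase T y hj]
        have e2 : τ j (y j) = -y j := hmov _ _ (by rw [hcτ, if_pos rfl, norm_one]; norm_num)
        have e3 : ∏ i ∈ T.erase j, τ j (y i) = ∏ i ∈ T.erase j, y i := by
          refine Finset.prod_congr rfl fun i hi => hfix _ _ ?_
          rw [hcτ, if_neg (Finset.ne_of_mem_erase hi), norm_zero]
          norm_num
        rw [e2, e3]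
        ring
      have e4 : ∏ i ∈ T, y i = algebraMap K (AlgebraicClosure K) z ∨
          ∏ i ∈ T, y i = -algebraMap K (AlgebraicClosure K) z := by
        apply sq_eq_sq_iff_eq_or_eq_neg.1
        rw [hprod, hz, map_mul, pow_two]
      have e5 : τ j (∏ i ∈ T, y i) = ∏ i ∈ T, y i := by
        rcases e4 with h | h <;> rw [h]
        · exact AlgEquiv.commutes _ _
        · rw [map_neg, AlgEquiv.commutes]
      rw [e5] at e1
      exact hP0 (self_eq_neg.1 e1)
    · rintro ⟨z, hz⟩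
      have e1 : σ₀ (∏ i ∈ T, y i) = ∏ i ∈ T, y i := by
        rw [map_prod]
        refine Finset.prod_congr rfl fun i _ => hfix _ _ ?_
        rw [(mem_Sel0.1 (hc i)).2, norm_zero]
        norm_num
      have e4 : y0 * ∏ i ∈ T, y i = algebraMap K (AlgebraicClosure K) z ∨
          y0 * ∏ i ∈ T, y i = -algebraMap K (AlgebraicClosure K) z := by
        apply sq_eq_sq_iff_eq_or_eq_neg.1
        rw [mul_pow, hprod, hy0, ← map_mul, hz, map_mul, pow_two]
      have e5 : σ₀ (y0 * ∏ i ∈ T, y i) = y0 * ∏ i ∈ T, y i := by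
        rcases e4 with h | h <;> rw [h]
        · exact AlgEquiv.commutes _ _
        · rw [map_neg, AlgEquiv.commutes]
      rw [map_mul, e1] at e5
      exact hσ₀ (mul_right_cancel₀ hP0 e5))
  omega

end Pool.Agent.Q274.BKC
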