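import Pool.Agent.Q274.BKC.Fin

/-!
# The invariants are zero
-/

set_option autoImplicit false

namespace Pool.Agent.Q274.BKC

open NumberField IsDedekindDomain
open scoped Classical

/-- `D s` is not a square -/
lemma not_sq (K : Type) [Field K] [NumberField K] {q D : ℕ} (s : K) (hq : q.Prime) (hD : D ≠ 0)
    (hs : s ^ 2 = -(q : K)) (hK : Module.finrank ℚ K = 2) (x : K) : x ^ 2 ≠ D * s := by
  intro hx
  have h1 : Algebra.norm ℚ s ^ 2 = (q : ℚ) ^ 2 := by
    rw [← map_pow, hs]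
    have h2 : -(q : K) = algebraMap ℚ K (-(q : ℚ)) := by simp
    rw [h2, Algebra.norm_algebraMap, hK]
    ring
  have h2 : Algebra.norm ℚ x ^ 2 = (D : ℚ) ^ 2 * Algebra.norm ℚ s := by
    rw [← map_pow, hx, map_mul]
    have h3 : (D : K) = algebraMap ℚ K (D : ℚ) := by simp
    rw [h3, Algebra.norm_algebraMap, hK]
  have hD' : (D : ℚ) ≠ 0 := by exact_mod_cast hD
  have hq0 : (0 : ℚ) < q := by exact_mod_cast hq.pos
  have h3 : Algebra.norm ℚ s = q := by
    rcases sq_eq_sq_iff_eq_or_eq_neg.1 h1 with h | h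
    · exact h
    · exfalso
      have h4 : 0 ≤ Algebra.norm ℚ x ^ 2 := sq_nonneg _
      rw [h2, h] at h4
      have h5 : 0 < (D : ℚ) ^ 2 := by positivity
      nlinarith
  rw [h3] at h2
  have h4 : IsSquare (q : ℚ) := by
    refine ⟨Algebra.norm ℚ x / D, ?_⟩
    field_simp
    linarith
  have h5 : IsSquare q := Rat.isSquare_natCast_iff.1 h4
  exact hq.prime.irreducible.not_isSquare h5

/-- the quadratic character of `K(√(D s))` is not trivial -/
theorem exists_ne (K : Type) [Field K] [NumberField K] {q D : ℕ} (s : K) (χ : GK K →* ℤ_[2]ˣ)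
    (hq : q.Prime) (hD : D ≠ 0) (hs : s ^ 2 = -(q : K)) (hK : Module.finrank ℚ K = 2)
    (hr : Res s D χ) : ∃ σ : GK K, val χ σ ≠ 1 := by
  by_contra hcon
  push Not at hcon
  obtain ⟨y, hy⟩ := IsAlgClosed.exists_pow_nat_eq (algebraMap K (AlgebraicClosure K) (D * s))
    (n := 2) (by norm_num)
  have h1 : ∀ σ : GK K, σ y = y := fun σ =>
    (hr y hy σ).2 (by rw [hcon σ, sub_self, norm_zero]; norm_num)
  have h2 : y ∈ Set.range (algebraMap K (AlgebraicClosure K)) :=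
    (InfiniteGalois.mem_range_algebraMap_iff_fixed y).2 h1
  obtain ⟨x, rfl⟩ := h2
  rw [← map_pow] at hy
  exact not_sq K s hq hD hs hK x ((algebraMap K (AlgebraicClosure K)).injective hy)

/-- the invariants are zero -/
theorem h0 (K : Type) [Field K] [NumberField K] (q D i : ℕ) (s : K) (t : ℤ_[2])
    (χ : GK K →* ℤ_[2]ˣ) (hq : q.Prime) (hq8 : q % 8 = 7) (hD : Cl q D) (hs : s ^ 2 = -(q : K))
    (hK : Module.finrank ℚ K = 2) (ht : t ^ 2 = -(q : ℤ_[2])) (ht4 : (4 : ℤ_[2]) ∣ t - 3)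
    (hc : Continuous χ) (hχ : IsWeight q D i s t χ) (x : ℚ_[2])
    (hx : ∀ σ : GK K, val χ σ * x = x) : x = 0 := by
  obtain ⟨-, h2⟩ := t_WT K q D i s t χ hq hq8 hD hs hK ht ht4 hc hχ
  obtain ⟨σ, hσ⟩ := exists_ne K s χ hq hD.sqf.ne_zero hs hK h2
  by_contra hx0
  apply hσ
  have h3 := hx σ
  exact mul_right_cancel₀ hx0 (by rw [h3, one_mul])

end Pool.Agent.Q274.BKC
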