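import Mathlib
import Pool.Agent.W401.Cheb.AbsDefs
import Pool.Agent.Y676.Hil

/-!
# Bloch-Kato Selmer groups of CM motives of all weights at the prime 2: definitions

`q = 7 mod 8` is a prime, `K = ℚ(√-q)`, `s ∈ K` with `s ^ 2 = -q`.  The prime `2` splits in `K`,
`2 = v v'`; at `v` the element `s` is `3` modulo `4`, at `v'` it is `1` modulo `4`.
-/

set_option autoImplicit false
set_option linter.unusedVariables false

namespace Pool.Agent.Q274.BKC

open NumberField IsDedekindDomain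
open scoped Classical

/-! ### Galois groups, cocycles, Selmer conditions -/

/-- the absolute Galois group -/
abbrev GK (K : Type) [Field K] : Type := Gal(AlgebraicClosure K/K)

/-- the ring of all algebraic integers -/
abbrev OB (K : Type) [Field K] : Type := 𝓞 (AlgebraicClosure K)

section
variable {K : Type} [Field K]

/-- the decomposition group of `Q` -/
def Dec (Q : Ideal (OB K)) : Set (GK K) := {σ | ∀ x : OB K, σ • x ∈ Q ↔ x ∈ Q}

/-- the inertia group of `Q` -/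
def Ine (Q : Ideal (OB K)) : Set (GK K) := {σ | ∀ x : OB K, σ • x - x ∈ Q}

/-- the value of the character in `ℚ_2` -/
noncomputable def val (χ : GK K →* ℤ_[2]ˣ) (σ : GK K) : ℚ_[2] := ((χ σ : ℤ_[2]) : ℚ_[2])

/-- `c` is a coboundary on the set `H` -/
def TrivOn (χ : GK K →* ℤ_[2]ˣ) (c : GK K → ℚ_[2]) (H : Set (GK K)) : Prop :=
  ∃ y : ℚ_[2], ∀ σ ∈ H, c σ = (val χ σ - 1) * y

/-- `Q` is above `v'`: it contains `2` and `(1 - s) / 2` -/
def AboveC (s : K) (Q : Ideal (OB K)) : Prop := (2 : OB K) ∈ Q ∧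
  ∃ z : OB K, z ∈ Q ∧ 2 * (z : AlgebraicClosure K) = 1 - algebraMap K (AlgebraicClosure K) s

/-- the Selmer condition: a continuous cocycle which is a coboundary on the inertia groups of the
primes not above `2` and on the decomposition groups of the primes above `v'` -/
structure IsSel (s : K) (χ : GK K →* ℤ_[2]ˣ) (c : GK K → ℚ_[2]) : Prop where
  cont : Continuous c
  coc : ∀ σ τ, c (σ * τ) = c σ + val χ σ * c τ
  ine : ∀ Q : Ideal (OB K), Q.IsMaximal → (2 : OB K) ∉ Q → TrivOn χ c (Ine Q)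
  dec : ∀ Q : Ideal (OB K), Q.IsMaximal → AboveC s Q → TrivOn χ c (Dec Q)

/-- the Selmer cocycles -/
def Sel (s : K) (χ : GK K →* ℤ_[2]ˣ) : Submodule ℚ_[2] (GK K → ℚ_[2]) where
  carrier := {c | IsSel s χ c}
  add_mem' := by
    rintro a b ha hb
    refine ⟨ha.cont.add hb.cont, fun σ τ => ?_, fun Q h1 h2 => ?_, fun Q h1 h2 => ?_⟩
    · simp only [Pi.add_apply, ha.coc, hb.coc]; ring
    · obtain ⟨y, hy⟩ := ha.ine Q h1 h2
      obtain ⟨z, hz⟩ := hb.ine Q h1 h2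
      exact ⟨y + z, fun σ hσ => by rw [Pi.add_apply, hy σ hσ, hz σ hσ]; ring⟩
    · obtain ⟨y, hy⟩ := ha.dec Q h1 h2
      obtain ⟨z, hz⟩ := hb.dec Q h1 h2
      exact ⟨y + z, fun σ hσ => by rw [Pi.add_apply, hy σ hσ, hz σ hσ]; ring⟩
  zero_mem' := by
    refine ⟨continuous_const, fun σ τ => by simp, fun Q _ _ => ⟨0, fun σ _ => by simp⟩,
      fun Q _ _ => ⟨0, fun σ _ => by simp⟩⟩
  smul_mem' := by
    rintro k a ha
    refine ⟨ha.cont.const_smul k, fun σ τ => ?_, fun Q h1 h2 => ?_, fun Q h1 h2 => ?_⟩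
    · simp only [Pi.smul_apply, ha.coc, smul_eq_mul]; ring
    · obtain ⟨y, hy⟩ := ha.ine Q h1 h2
      exact ⟨k * y, fun σ hσ => by rw [Pi.smul_apply, hy σ hσ, smul_eq_mul]; ring⟩
    · obtain ⟨y, hy⟩ := ha.dec Q h1 h2
      exact ⟨k * y, fun σ hσ => by rw [Pi.smul_apply, hy σ hσ, smul_eq_mul]; ring⟩

/-- the coboundaries -/
noncomputable def B1 (χ : GK K →* ℤ_[2]ˣ) : Submodule ℚ_[2] (GK K → ℚ_[2]) :=
  Submodule.span ℚ_[2] {fun σ => val χ σ - 1}

/-- the coboundaries among the Selmer cocycles -/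
noncomputable def B1s (s : K) (χ : GK K →* ℤ_[2]ˣ) : Submodule ℚ_[2] (Sel s χ) :=
  (B1 χ).comap (Sel s χ).subtype

/-- the Selmer group -/
abbrev H1f (s : K) (χ : GK K →* ℤ_[2]ˣ) : Type := Sel s χ ⧸ B1s s χ

/-! ### The general theorem -/

/-- `χ` is unramified outside `2 q D` -/
def Unr (q D : ℕ) (χ : GK K →* ℤ_[2]ˣ) : Prop :=
  ∀ Q : Ideal (OB K), Q.IsMaximal → ((2 * q * D : ℕ) : OB K) ∉ Q → ∀ σ ∈ Ine Q, χ σ = 1

/-- `χ` is the quadratic character of `K(√(D s))` modulo `4` -/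
def Res (s : K) (D : ℕ) (χ : GK K →* ℤ_[2]ˣ) : Prop :=
  ∀ y : AlgebraicClosure K, y ^ 2 = algebraMap K (AlgebraicClosure K) (D * s) →
    ∀ σ : GK K, (σ y = y ↔ ‖val χ σ - 1‖ ≤ 1 / 4)

end

/-! ### The class of the `D` and the matrix -/

/-- the class of the `D` -/
structure Cl (q D : ℕ) : Prop where
  sqf : Squarefree D
  one : ∀ p : ℕ, p.Prime → p ∣ D → p % 4 = 1 ∧ p ≠ q
  cong : (16 : ℤ) ∣ 2 * D + 5 - q

/-- the primes of `D` which split in `ℚ(√-q)` -/
noncomputable def SP (q D : ℕ) : Finset ℕ :=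
  D.primeFactors.filter fun p => IsSquare (-(q : ZMod p))

/-- additive quadratic symbol: `0` if `a` is a square modulo `p` and `1` otherwise -/
noncomputable def nr (p : ℕ) (a : ℕ) : ZMod 2 := if IsSquare (a : ZMod p) then 0 else 1

/-- additive quartic symbol of `-q` -/
noncomputable def n4 (q : ℕ) (p : ℕ) : ZMod 2 := if ∃ y : ZMod p, y ^ 4 = -(q : ZMod p) then 0 else 1

/-- the matrix -/
noncomputable def R (q D : ℕ) : Matrix (SP q D) (SP q D) (ZMod 2) := Matrix.of fun i j =>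
  if i = j then ∑ r ∈ D.primeFactors.erase i, nr i r + n4 q i else nr i j

/-- the corank of the matrix -/
noncomputable def corank (q D : ℕ) : ℕ :=
  Module.finrank (ZMod 2) (LinearMap.ker (Matrix.mulVecLin (R q D)))

/-- **the general theorem** -/
def S_GEN : Prop := ∀ (K : Type) [Field K] [NumberField K] (q D : ℕ) (s : K)
  (χ : GK K →* ℤ_[2]ˣ), q.Prime → q % 8 = 7 → Cl q D → s ^ 2 = -(q : K) →
  Module.finrank ℚ K = 2 → Continuous χ → Unr q D χ → Res s D χ →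
  Module.rank ℚ_[2] (H1f s χ) ≤ ((2 * corank q D : ℕ) : Cardinal)

/-! ### The characters of weight `i` -/

/-- `χ` is the 2-adic character of `ψ ^ (i + 1) * conj ψ ^ (-i)` twisted by `(-1) ^ i D`; `t` is the
image of `s` at `v` -/
def IsWeight {K : Type} [Field K] [NumberField K] (q D i : ℕ) (s : K) (t : ℤ_[2])
    (χ : GK K →* ℤ_[2]ˣ) : Prop :=
  ∀ (v : HeightOneSpectrum (𝓞 K)) (σ : GK K) (n : ℕ) (A B : ℤ) (β : 𝓞 K),
    ((2 * q * D : ℕ) : 𝓞 K) ∉ v.asIdeal → Pool.Agent.W401.Cheb.IsFrob v σ → Odd n →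
    v.asIdeal ^ n = Ideal.span {β} → (β : K) = A + B * s →
    ((χ σ : ℤ_[2]) ^ n) * ((A : ℤ_[2]) - B * t) ^ i =
      ((jacobiSym A q * jacobiSym ((-1) ^ i * D) (A ^ 2 + q * B ^ 2).natAbs : ℤ) : ℤ_[2]) *
        ((A : ℤ_[2]) + B * t) ^ (i + 1)

/-- **the theorem on the characters of weight `i`** -/
def S_WT : Prop := ∀ (K : Type) [Field K] [NumberField K] (q D i : ℕ) (s : K) (t : ℤ_[2])
  (χ : GK K →* ℤ_[2]ˣ), q.Prime → q % 8 = 7 → Cl q D → s ^ 2 = -(q : K) →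
  Module.finrank ℚ K = 2 → t ^ 2 = -(q : ℤ_[2]) → (4 : ℤ_[2]) ∣ t - 3 → Continuous χ →
  IsWeight q D i s t χ → Unr q D χ ∧ Res s D χ

end Pool.Agent.Q274.BKC
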