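import Pool.Agent.Q274.BKC.Fin
import Pool.Agent.Y948.CQ.C2

/-!
# Products modulo squares, the class of the twists, the constants of the law
-/

set_option autoImplicit false

namespace Pool.Agent.Q274.BKC

open Finset

lemma tw_mul {m D : ℕ} (hm : Squarefree m) (hD : Squarefree D) :
    tw m D * Nat.gcd m D ^ 2 = m * D := by
  unfold tw
  refine Nat.div_mul_cancel ?_
  rw [pow_two]
  exact mul_dvd_mul (Nat.gcd_dvd_left m D) (Nat.gcd_dvd_right m D)

lemma tw_sqf {m D : ℕ} (hm : Squarefree m) (hD : Squarefree D) : Squarefree (tw m D) := by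
  have hg0 : 0 < Nat.gcd m D := Nat.gcd_pos_of_pos_left _ (Nat.pos_of_ne_zero hm.ne_zero)
  obtain ⟨a, ha⟩ := Nat.gcd_dvd_left m D
  obtain ⟨b, hb⟩ := Nat.gcd_dvd_right m D
  have h1 : tw m D = a * b := by
    have h2 := tw_mul hm hD
    have h3 : m * D = (Nat.gcd m D * a) * (Nat.gcd m D * b) := congrArg₂ (· * ·) ha hb
    have h4 : tw m D * Nat.gcd m D ^ 2 = (a * b) * Nat.gcd m D ^ 2 := by
      rw [h2, h3]
      ring
    exact Nat.eq_of_mul_eq_mul_right (by positivity) h4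
  have hab : Nat.Coprime a b := by
    have h2 := Nat.coprime_div_gcd_div_gcd hg0
    rwa [Nat.div_eq_of_eq_mul_right hg0 ha, Nat.div_eq_of_eq_mul_right hg0 hb] at h2
  rw [h1, Nat.squarefree_mul hab]
  exact ⟨hm.squarefree_of_dvd ⟨_, by rw [mul_comm]; exact ha⟩,
    hD.squarefree_of_dvd ⟨_, by rw [mul_comm]; exact hb⟩⟩

lemma tw_dvd {m D p : ℕ} (hm : Squarefree m) (hD : Squarefree D) (hp : p.Prime)
    (h : p ∣ tw m D) : p ∣ m ∨ p ∣ D := by
  have h1 : p ∣ m * D := by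
    rw [← tw_mul hm hD]
    exact Dvd.dvd.mul_right h _
  exact (hp.dvd_mul).1 h1

lemma mod8_one {n : ℕ} (hn : Squarefree n) (h : ∀ p : ℕ, p.Prime → p ∣ n → p % 8 = 1) :
    n % 8 = 1 := by
  rw [← Nat.prod_primeFactors_of_squarefree hn]
  have key : ∀ S : Finset ℕ, (∀ p ∈ S, p % 8 = 1) → (∏ p ∈ S, p) % 8 = 1 := by
    intro S
    induction S using Finset.induction_on with
    | empty => intro _; simp
    | insert a S ha ih =>
      intro hS
      rw [Finset.prod_insert ha, Nat.mul_mod, ih fun p hp => hS p (Finset.mem_insert_of_mem hp),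
        hS a (Finset.mem_insert_self _ _)]
  exact key _ fun p hp => h p (Nat.prime_of_mem_primeFactors hp) (Nat.dvd_of_mem_primeFactors hp)

lemma sq_mod8 {g : ℕ} (h : Odd g) : g ^ 2 % 8 = 1 := by
  obtain ⟨k, rfl⟩ := h
  have h1 : Even (k * (k + 1)) := Nat.even_mul_succ_self k
  obtain ⟨j, hj⟩ := h1
  have h2 : (2 * k + 1) ^ 2 = 8 * j + 1 := by
    have : (2 * k + 1) ^ 2 = 4 * (k * (k + 1)) + 1 := by ring
    rw [this, hj]
    ring
  omega

lemma tw_mod8 {q m D : ℕ} (hm : Clm q m) (hD : Cl8 q D) : tw m D % 8 = m % 8 := by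
  have h1 := tw_mul hm.1 hD.1
  have h2 := mod8_one hD.1 fun p hp h => (hD.2 p hp h).1
  have hodd : Odd (Nat.gcd m D) := by
    have h3 : Odd D := by
      rw [Nat.odd_iff]
      omega
    exact Odd.of_dvd_nat h3 (Nat.gcd_dvd_right m D)
  have h3 := sq_mod8 hodd
  have h4 : (tw m D * Nat.gcd m D ^ 2) % 8 = (m * D) % 8 := by rw [h1]
  rw [Nat.mul_mod, h3, Nat.mul_mod m D, h2, mul_one, mul_one, Nat.mod_mod, Nat.mod_mod] at h4
  exact h4

/-- the twists are in the class -/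
theorem tw_Cl {q m D : ℕ} (hm : Clm q m) (hc : (16 : ℤ) ∣ 2 * m + 5 - q) (hD : Cl8 q D) :
    Cl q (tw m D) := by
  refine ⟨tw_sqf hm.1 hD.1, fun p hp h => ?_, ?_⟩
  · rcases tw_dvd hm.1 hD.1 hp h with h1 | h1
    · obtain ⟨h2, h3⟩ := hm.2 p hp h1
      refine ⟨?_, h3⟩
      rcases h2 with h4 | h4
      · omega
      · omega
    · obtain ⟨h2, h3⟩ := hD.2 p hp h1
      exact ⟨by omega, h3⟩
  · have h1 := tw_mod8 hm hD
    obtain ⟨k, hk⟩ := hc
    have h2 : (tw m D : ℤ) % 8 = (m : ℤ) % 8 := by exact_mod_cast h1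
    omega

/-- the constants of the law -/
theorem cR_eq {M : ℕ} (r : Fin M → ℕ) : Q283.GM.cR r = ∏ j,
    ((∏' i : ℕ, (1 - (1 / 2 : ℝ) ^ (2 * i + 1))) /
      ∏ i ∈ Finset.range (r j), ((2 : ℝ) ^ (i + 1) - 1)) := by
  have h : ∀ r, Y697.PQ.cf r = (∏ i ∈ Finset.range r, ((2 : ℝ) ^ (i + 1) - 1))⁻¹ := by
    intro r
    induction r with
    | zero => simp [Y697.PQ.cf]
    | succ r ih =>
      rw [show Y697.PQ.cf (r + 1) = Y697.PQ.cf r / (2 ^ (r + 1) - 1) from rfl, ih,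
        Finset.prod_range_succ, mul_inv, div_eq_mul_inv]
  unfold Q283.GM.cR
  refine Finset.prod_congr rfl fun j _ => ?_
  rw [h, div_eq_mul_inv]
  rfl

/-- the number `κ` -/
theorem kappa_bounds : 0.4194 < (∏' i : ℕ, (1 - (1 / 2 : ℝ) ^ (2 * i + 1))) ∧
    (∏' i : ℕ, (1 - (1 / 2 : ℝ) ^ (2 * i + 1))) < 0.4195 :=
  Pool.Agent.Y948.CQ.t_C2.2.2.2

end Pool.Agent.Q274.BKC
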